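import Pool.Agent.H88.Bloch3

set_option autoImplicit false

namespace Pool.Agent.Results.MP_034cab_an.Rate

open Pool.Agent.H88.Bloch Filter Asymptotics

theorem result :
    (∀ (f : ℂ → ℂ) (a : ℕ → ℂ), InC f a → SN a =O[atTop] fun N : ℕ => √(Real.log N)) ∧
    ∃ (f : ℂ → ℂ) (a : ℕ → ℂ), InC f a ∧ (fun N : ℕ => √(Real.log N)) =O[atTop] SN a ∧
      ¬ SN a =o[atTop] fun N : ℕ => √(Real.log N) := by
  refine ⟨fun _ _ h => upper h, ?_⟩
  obtain ⟨f, a, h1, h2⟩ := sharp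
  refine ⟨f, a, h1, h2, fun h => isLittleO_irrefl (Eventually.frequently ?_) (h2.trans_isLittleO h)⟩
  filter_upwards [eventually_ge_atTop 2] with N hN
  exact (Real.sqrt_pos.2 (Real.log_pos (by exact_mod_cast hN))).ne'

end Pool.Agent.Results.MP_034cab_an.Rate
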